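import Pool.Agent.Lib.helper27.SSep

set_option autoImplicit false

namespace Pool.Agent.Results.MP_67c6ba_gt.RealNotSSeparable

open TopologicalSpace

theorem result : ∃ (H : Type) (_ : TopologicalSpace H) (_ : Group H), IsTopologicalGroup H ∧
    T2Space H ∧ (∀ K : Subgroup H, IsClosed (K : Set H) → SeparableSpace K) ∧
    ∃ L : Subgroup (Multiplicative ℝ × H), IsClosed (L : Set (Multiplicative ℝ × H)) ∧
      ¬ SeparableSpace L :=
  Pool.Agent.Lib.helper27.SSep.core

end Pool.Agent.Results.MP_67c6ba_gt.RealNotSSeparable
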